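import Pool.Agent.H41.SP.Main

/-!
# Collineations of odd prime order of spreads of parabolic quadrics (MP_29035e_co)
-/

set_option autoImplicit false

namespace Pool.Agent.H51.SP

open Module QuadraticMap Pool.Agent.H41.SP

section half

variable {F : Type*} [Field F] {V : Type*} [AddCommGroup V] [Module F V]
variable {Q : QuadraticForm F V}

lemma trace_spread {E : Submodule F V} {S T : Set (Submodule F V)} (hT : T ⊆ S)
    (hmem : ∀ X ∈ S, ∀ x ∈ X, x ≠ 0 → x ∈ E → X ∈ T) {d : ℕ} (hS : IsSpread Q d S) {a : ℕ}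
    (ha : ∀ X ∈ T, finrank F (X.comap E.subtype) = a) : IsSpread (Q.restrict E) a (traceOn E T) where
  tot := by
    rintro _ ⟨X, hX, rfl⟩ x hx
    exact hS.tot X (hT hX) _ hx
  dim := by
    rintro _ ⟨X, hX, rfl⟩
    exact ha X hX
  cover := by
    intro x hx0 hQx
    have hx0' : (x : V) ≠ 0 := by simpa using hx0
    obtain ⟨X, ⟨hX, hxX⟩, huniq⟩ := hS.cover x hx0' hQx
    refine ⟨X.comap E.subtype, ⟨⟨X, hmem X hX _ hxX hx0' x.2, rfl⟩, hxX⟩, ?_⟩
    rintro _ ⟨⟨Y, hY, rfl⟩, hxY⟩
    have : Y = X := huniq Y ⟨hT hY, hxY⟩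
    rw [this]

lemma trace_card {E : Submodule F V} {S T : Set (Submodule F V)} (hT : T ⊆ S)
    {d : ℕ} (hS : IsSpread Q d S) {a : ℕ} (ha1 : 1 ≤ a)
    (ha : ∀ X ∈ T, finrank F (X.comap E.subtype) = a) : Nat.card (traceOn E T) = Nat.card T := by
  symm
  apply Nat.card_congr
  refine Equiv.Set.imageOfInjOn (fun X : Submodule F V => X.comap E.subtype) T ?_
  intro X hX Y hY hXY
  have h1 : (X.comap E.subtype) ≠ ⊥ := by
    intro h0
    have := ha X hX
    rw [h0, finrank_bot] at this
    omega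
  obtain ⟨x, hx, hx0⟩ := Submodule.exists_mem_ne_zero_of_ne_bot h1
  have hxY : x ∈ Y.comap E.subtype := by
    have : X.comap E.subtype = Y.comap E.subtype := hXY
    rw [← this]; exact hx
  exact hS.uniq (hT hX) (hT hY) (x := (x : V)) (by simpa using hx0) hx hxY

end half

section avg

variable {F : Type*} [Field F] {V : Type*} [AddCommGroup V] [Module F V]

/-- the sum of the first `r` powers of `t` -/
noncomputable def NN (t : V ≃ₗ[F] V) (r : ℕ) : V →ₗ[F] V :=
  ∑ i ∈ Finset.range r, ((t : V →ₗ[F] V) : Module.End F V) ^ i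

variable {t : V ≃ₗ[F] V} {r : ℕ}

lemma pow_one_of (hr : ∀ x, t^[r] x = x) : ((t : V →ₗ[F] V) : Module.End F V) ^ r = 1 := by
  ext x
  rw [Module.End.pow_apply]
  exact hr x

lemma t_NN (hr : ∀ x, t^[r] x = x) (x : V) : t (NN t r x) = NN t r x := by
  have h := mul_geom_sum ((t : V →ₗ[F] V) : Module.End F V) r
  rw [pow_one_of hr, sub_self] at h
  have h1 := congrArg (fun f : Module.End F V => f x) h
  have h2 : t (NN t r x) - NN t r x = 0 := h1
  exact sub_eq_zero.1 h2

lemma NN_t (hr : ∀ x, t^[r] x = x) (x : V) : NN t r (t x) = NN t r x := by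
  have h := geom_sum_mul ((t : V →ₗ[F] V) : Module.End F V) r
  rw [pow_one_of hr, sub_self] at h
  have h1 := congrArg (fun f : Module.End F V => f x) h
  have h2 : NN t r (t x - x) = 0 := h1
  rw [map_sub] at h2
  exact sub_eq_zero.1 h2

lemma NN_eig {x : V} (hx : x ∈ eig t 1) : NN t r x = (r : F) • x := by
  have h1 : t x = x := by rw [mem_eig.1 hx, one_smul]
  have h2 : ∀ i : ℕ, (((t : V →ₗ[F] V) : Module.End F V) ^ i) x = x := by
    intro i
    rw [Module.End.pow_apply]
    exact Function.iterate_fixed h1 i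
  unfold NN
  rw [LinearMap.sum_apply, Finset.sum_congr rfl (fun i _ => h2 i), Finset.sum_const,
    Finset.card_range, Nat.cast_smul_eq_nsmul]

lemma avg_compl (hr : ∀ x, t^[r] x = x) (hrF : (r : F) ≠ 0) :
    IsCompl (eig t 1) (LinearMap.ker (NN t r)) := by
  refine IsCompl.of_eq ?_ ?_
  · rw [eq_bot_iff]
    intro x hx
    have h1 := NN_eig (r := r) hx.1
    rw [LinearMap.mem_ker.1 hx.2] at h1
    rcases smul_eq_zero.1 h1.symm with h | h
    · exact absurd h hrF
    · exact h
  · rw [eq_top_iff]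
    intro x _
    have e0 : NN t r x ∈ eig t 1 := by
      rw [mem_eig, one_smul]; exact t_NN hr x
    have e1 : (r : F)⁻¹ • NN t r x ∈ eig t 1 := Submodule.smul_mem _ _ e0
    have e2 : x - (r : F)⁻¹ • NN t r x ∈ LinearMap.ker (NN t r) := by
      rw [LinearMap.mem_ker, map_sub, map_smul, NN_eig e0, inv_smul_smul₀ hrF, sub_self]
    have e3 : x = (r : F)⁻¹ • NN t r x + (x - (r : F)⁻¹ • NN t r x) := by abel
    rw [e3]
    exact Submodule.add_mem_sup e1 e2

variable {Q : QuadraticForm F V}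

lemma polar_t (ht : ∀ x, Q (t x) = Q x) (x y : V) : polar Q (t x) (t y) = polar Q x y := by
  unfold polar
  rw [← map_add, ht, ht, ht]

lemma avg_orth (hrF : (r : F) ≠ 0) (ht : ∀ x, Q (t x) = Q x) :
    ∀ x ∈ eig t 1, ∀ y ∈ LinearMap.ker (NN t r), polar Q x y = 0 := by
  intro x hx y hy
  have h1 : t x = x := by rw [mem_eig.1 hx, one_smul]
  have h2 : ∀ i : ℕ, polar Q x ((((t : V →ₗ[F] V) : Module.End F V) ^ i) y) = polar Q x y := by
    intro i
    rw [Module.End.pow_apply]
    induction i with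
    | zero => rfl
    | succ i ih =>
      rw [Function.iterate_succ_apply']
      calc polar Q x (t (t^[i] y)) = polar Q (t x) (t (t^[i] y)) := by rw [h1]
        _ = polar Q x (t^[i] y) := polar_t ht _ _
        _ = _ := ih
  have h3 : polar Q x (NN t r y) = (r : F) * polar Q x y := by
    have h2' : ∀ i : ℕ, bf Q x ((((t : V →ₗ[F] V) : Module.End F V) ^ i) y) = polar Q x y := h2
    have : bf Q x (NN t r y) = (r : F) * polar Q x y := by
      unfold NN
      rw [LinearMap.sum_apply, map_sum, Finset.sum_congr rfl (fun i _ => h2' i), Finset.sum_const,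
        Finset.card_range, nsmul_eq_mul]
    exact this
  rw [LinearMap.mem_ker.1 hy, polar_zero_right] at h3
  rcases mul_eq_zero.1 h3.symm with h | h
  · exact absurd h hrF
  · exact h

lemma avg_split (hr : ∀ x, t^[r] x = x) (hrF : (r : F) ≠ 0) {S : Set (Submodule F V)} :
    ∀ X ∈ fixedMembers S t, ∀ x ∈ X, ∃ y ∈ X ⊓ eig t 1, ∃ z ∈ X ⊓ LinearMap.ker (NN t r),
      x = y + z := by
  intro X hX x hx
  have h0 : ∀ i : ℕ, (((t : V →ₗ[F] V) : Module.End F V) ^ i) x ∈ X := by
    intro i
    rw [Module.End.pow_apply]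
    induction i with
    | zero => exact hx
    | succ i ih =>
      rw [Function.iterate_succ_apply']
      exact (((map_eq_iff t X).1 hX.2) _).1 ih
  have h1 : NN t r x ∈ X := by
    unfold NN
    rw [LinearMap.sum_apply]
    exact X.sum_mem (fun i _ => h0 i)
  have e0 : NN t r x ∈ eig t 1 := by
    rw [mem_eig, one_smul]; exact t_NN hr x
  refine ⟨(r : F)⁻¹ • NN t r x, ⟨X.smul_mem _ h1, Submodule.smul_mem _ _ e0⟩,
    x - (r : F)⁻¹ • NN t r x, ⟨X.sub_mem hx (X.smul_mem _ h1), ?_⟩, by abel⟩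
  show _ ∈ LinearMap.ker (NN t r)
  rw [LinearMap.mem_ker, map_sub, map_smul, NN_eig e0, inv_smul_smul₀ hrF, sub_self]

lemma avg_mem {d : ℕ} {S : Set (Submodule F V)} (hS : IsSpread Q d S)
    (hpres : ∀ X ∈ S, X.map (t : V →ₗ[F] V) ∈ S) :
    ∀ X ∈ S, ∀ x ∈ X, x ≠ 0 → x ∈ eig t 1 → X ∈ fixedMembers S t := by
  intro X hX x hx hx0 he
  refine ⟨hX, ?_⟩
  rw [map_eq_iff]
  have hpr : Preserves S t.toAddEquiv := by
    intro Y hY
    refine ⟨Y.map (t : V →ₗ[F] V), hpres Y hY, fun y => ?_⟩
    constructor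
    · intro hy
      exact Submodule.mem_map_of_mem (f := (t : V →ₗ[F] V)) hy
    · rintro ⟨z, hz, hzy⟩
      have : z = y := t.injective hzy
      rwa [← this]
  apply fix_of_vec hS hpr hX hx hx0
  show t x ∈ X
  rw [mem_eig.1 he, one_smul]
  exact hx

/-- the splitting, as an instance of `Compat` for the set of the fixed members -/
lemma avg_compat (hr : ∀ x, t^[r] x = x) (hrF : (r : F) ≠ 0) (ht : ∀ x, Q (t x) = Q x)
    (S : Set (Submodule F V)) :
    Compat Q (eig t 1) (LinearMap.ker (NN t r)) (fixedMembers S t) (fixedMembers S t) where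
  compl := avg_compl hr hrF
  orth := avg_orth hrF ht
  sub := fun _ h => h
  split := avg_split hr hrF
  mem := fun _ h _ _ _ _ => h

variable [Module.Finite F V]

/-- the second summand has even dimension -/
lemma avg_even (h2 : (2 : F) ≠ 0) (hQ : NonSing Q) (hr : ∀ x, t^[r] x = x) (hrF : (r : F) ≠ 0)
    (hodd : Odd r) (ht : ∀ x, Q (t x) = Q x) : Even (finrank F (LinearMap.ker (NN t r))) := by
  set D := LinearMap.ker (NN t r) with hD
  have hc := avg_compat hr hrF ht (∅ : Set (Submodule F V))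
  have hns : NonSing (Q.restrict D) := hc.symm.nonsing hQ
  have hDt : ∀ x ∈ D, t x ∈ D := by
    intro x hx
    rw [hD, LinearMap.mem_ker, NN_t hr]
    exact hx
  have hDs : ∀ x ∈ D, t.symm x ∈ D := by
    intro x hx
    have h1 := NN_t hr (t.symm x)
    rw [t.apply_symm_apply] at h1
    rw [hD, LinearMap.mem_ker, ← h1]
    exact hx
  let ω : LinearMap.BilinForm F D :=
    (bf Q).compl₁₂ D.subtype ((t : V →ₗ[F] V) ∘ₗ D.subtype) -
      (bf Q).compl₁₂ ((t : V →ₗ[F] V) ∘ₗ D.subtype) D.subtype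
  have hω : ∀ x y : D, ω x y = polar Q (x : V) (t (y : V)) - polar Q (t (x : V)) (y : V) :=
    fun x y => rfl
  have halt : ∀ x, ω x x = 0 := by
    intro x
    rw [hω, polar_comm, sub_self]
  have key : ∀ x : D, (∀ y : D, ω x y = 0) → x = 0 := by
    intro x hx
    have e1 : (⟨t.symm (x : V) - t (x : V), D.sub_mem (hDs _ x.2) (hDt _ x.2)⟩ : D) = 0 := by
      apply hns
      intro y
      have h1 := hx y
      rw [hω] at h1
      show polar Q (t.symm (x : V) - t (x : V)) (y : V) = 0
      rw [polar_sub_left, ← polar_t ht (t.symm (x : V)) (y : V), t.apply_symm_apply]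
      exact h1
    have e2 : t.symm (x : V) - t (x : V) = 0 := congrArg (fun z : D => (z : V)) e1
    have e3 : t (t (x : V)) = (x : V) := by
      rw [← sub_eq_zero.1 e2, t.apply_symm_apply]
    have e4 : t (x : V) = (x : V) := by
      obtain ⟨k, hk⟩ := hodd
      have h5 := hr (x : V)
      have h6 : ∀ j : ℕ, t^[2 * j] (x : V) = (x : V) := by
        intro j
        induction j with
        | zero => rfl
        | succ j ih =>
          rw [show 2 * (j + 1) = 2 * j + 1 + 1 by ring, Function.iterate_succ_apply',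
            Function.iterate_succ_apply', ih, e3]
      have h7 : t^[2 * k + 1] (x : V) = t (t^[2 * k] (x : V)) := Function.iterate_succ_apply' _ _ _
      rw [hk, h7, h6 k] at h5
      exact h5
    have e5 : (x : V) ∈ eig t 1 ⊓ D := ⟨mem_eig.2 (by rw [one_smul]; exact e4), x.2⟩
    rw [hc.compl.inf_eq_bot] at e5
    ext
    simpa using e5
  apply even_of_alt h2 ω halt
  constructor
  · intro x hx
    exact key x hx
  · intro x hx
    apply key
    intro y
    have h1 := halt (x + y)
    simp only [map_add, LinearMap.add_apply, halt, zero_add, add_zero] at h1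
    have h3 : ω y x = 0 := hx y
    linear_combination h1 - h3

end avg

end Pool.Agent.H51.SP
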