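import Pool.Agent.H51.SP.Half

/-!
# Collineations of odd prime order of spreads of parabolic quadrics: the fixed members

Second form: the quadratic form on the eigenspace is non-singular.
-/

set_option autoImplicit false

namespace Pool.Agent.H51.SPN

open Module QuadraticMap Pool.Agent.H41.SP Pool.Agent.H51.SP

variable {F : Type*} [Field F] [Finite F] {V : Type*} [AddCommGroup V] [Module F V]
variable [Module.Finite F V] {Q : QuadraticForm F V} {t : V ≃ₗ[F] V} {r : ℕ}

lemma count_fixed (hp : r.Prime) (hr : ∀ x, t^[r] x = x) {S : Set (Submodule F V)}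
    (hpres : ∀ X ∈ S, X.map (t : V →ₗ[F] V) ∈ S) :
    Nat.card S ≡ Nat.card (fixedMembers S t) [MOD r] := by
  classical
  have hV : Finite V := Module.finite_of_finite F
  have hfS : Finite (Submodule F V) :=
    Finite.of_injective (fun W : Submodule F V => (W : Set V)) SetLike.coe_injective
  have : Fintype S := Fintype.ofFinite S
  have : Fact r.Prime := ⟨hp⟩
  let f : Function.End S := fun X => ⟨X.1.map (t : V →ₗ[F] V), hpres X.1 X.2⟩
  have hf : ∀ (i : ℕ) (X : S), ((f ^ i : Function.End S) X).1 =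
      X.1.map ((((t : V →ₗ[F] V) : Module.End F V) ^ i : Module.End F V) : V →ₗ[F] V) := by
    intro i
    induction i with
    | zero =>
      intro X
      rw [pow_zero, pow_zero]
      exact (Submodule.map_id X.1).symm
    | succ i ih =>
      intro X
      rw [pow_succ', pow_succ']
      show ((f ^ i : Function.End S) X).1.map (t : V →ₗ[F] V) = _
      rw [ih, ← Submodule.map_comp]
      rfl
  have hfr : f ^ r = 1 := by
    funext X
    apply Subtype.ext
    rw [hf r X, pow_one_of hr]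
    exact Submodule.map_id X.1
  have h := Equiv.Perm.card_fixedPoints_modEq (p := r) (n := 1) (f := f) (by rw [pow_one]; exact hfr)
  let e : Function.fixedPoints f ≃ fixedMembers S t :=
    { toFun := fun X => ⟨X.1.1, X.1.2, congrArg Subtype.val X.2⟩
      invFun := fun X => ⟨⟨X.1, X.2.1⟩, Subtype.ext X.2.2⟩
      left_inv := fun X => rfl
      right_inv := fun X => rfl }
  rw [← Nat.card_congr e, Nat.card_eq_fintype_card, Nat.card_eq_fintype_card]
  exact h

lemma coprime_card (hp : r.Prime) (hrF : (r : F) ≠ 0) : r.Coprime (Nat.card F) := by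
  classical
  have : Fintype F := Fintype.ofFinite F
  obtain ⟨p, hpc⟩ := CharP.exists F
  obtain ⟨k, hpp, hk⟩ := FiniteField.card F p
  rw [Nat.card_eq_fintype_card, hk, hp.coprime_iff_not_dvd]
  intro h
  have h1 := hp.dvd_of_dvd_pow h
  rw [Nat.prime_dvd_prime_iff_eq hp hpp] at h1
  apply hrF
  rw [h1]
  exact CharP.cast_eq_zero F p

/-- The fixed members of an isometry of odd prime order. -/
theorem odd_main (h2 : (2 : F) ≠ 0) (hQ : NonSing Q) {n : ℕ} (hV : finrank F V = 4 * n + 3)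
    {S : Set (Submodule F V)} (hS : IsSpread Q (2 * n + 1) S) (hp : r.Prime) (hr2 : r ≠ 2)
    (hrF : (r : F) ≠ 0) (ht : ∀ x, Q (t x) = Q x) (hr : ∀ x, t^[r] x = x)
    (hpres : ∀ X ∈ S, X.map (t : V →ₗ[F] V) ∈ S) :
    ∃ a : ℕ, finrank F (eig t 1) = 2 * a + 1 ∧ NonSing (Q.restrict (eig t 1)) ∧
      (1 ≤ a → Odd a ∧
        IsSpread (Q.restrict (eig t 1)) a (traceOn (eig t 1) (fixedMembers S t)) ∧
        (fixedMembers S t).ncard = Nat.card F ^ a + 1 ∧
        r ∣ Nat.card F ^ (2 * n + 1 - a) - 1) ∧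
      (a = 0 → (fixedMembers S t = ∅ ∧ r ∣ Nat.card F ^ (2 * n + 1) + 1) ∨
        ((fixedMembers S t).ncard = 2 ∧ r ∣ Nat.card F ^ (2 * n + 1) - 1)) := by
  classical
  have hVf : Finite V := Module.finite_of_finite F
  have hfS : Finite (Submodule F V) :=
    Finite.of_injective (fun W : Submodule F V => (W : Set V)) SetLike.coe_injective
  have hodd : Odd r := hp.odd_of_ne_two hr2
  set C := eig t 1 with hC
  set D := LinearMap.ker (NN t r) with hD
  set T := fixedMembers S t with hT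
  set q := Nat.card F with hq
  have hq1 : 1 < q := one_lt_q
  have hqr : r.Coprime q := coprime_card hp hrF
  have hc := avg_compat hr hrF ht S
  have hsum : finrank F C + finrank F D = 4 * n + 3 := by
    rw [← hV, Submodule.finrank_add_eq_of_isCompl hc.compl]
  obtain ⟨b, hb⟩ := avg_even h2 hQ hr hrF hodd ht
  rw [← hD] at hb
  have hnsC : NonSing (Q.restrict C) := hc.nonsing hQ
  have hnsD : NonSing (Q.restrict D) := hc.symm.nonsing hQ
  have hTS : T ⊆ S := fun X hX => hX.1
  have hmem := avg_mem hS hpres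
  -- the number of members
  have hSne : S.Nonempty := by
    obtain ⟨x, hx0, hQx⟩ := exists_singular h2 Q (by omega)
    obtain ⟨X, ⟨hX, _⟩, _⟩ := hS.cover x hx0 hQx
    exact ⟨X, hX⟩
  have hcS : Nat.card S = q ^ (2 * n + 1) + 1 :=
    spread_card_odd hQ (by omega) hS hSne (by omega)
  have hmod := count_fixed hp hr hpres
  rw [hcS, ← hT] at hmod
  obtain ⟨a, ha⟩ : ∃ a, finrank F C = 2 * a + 1 := ⟨2 * n + 1 - b, by omega⟩
  have hab : a + b = 2 * n + 1 := by omega
  have hdims : ∀ X ∈ T, finrank F (X.comap C.subtype) = a ∧ finrank F (X.comap D.subtype) = b := by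
    intro X hX
    have h1 := hc.finrank_add hX
    rw [← hC, ← hD, hS.dim X (hTS hX)] at h1
    have h3 := ts_dim hnsC (W := X.comap C.subtype) (fun x hx => hS.tot X (hTS hX) _ hx)
    have h4 := ts_dim hnsD (W := X.comap D.subtype) (fun x hx => hS.tot X (hTS hX) _ hx)
    omega
  -- three fixed members
  have hthree : 2 < T.ncard → Even b := by
    intro hcard
    obtain ⟨X, Y, Z, hX, hY, hZ, hXY, hXZ, hYZ⟩ := (Set.two_lt_ncard_iff).1 hcard
    have hdisj : ∀ A ∈ T, ∀ B ∈ T, A ≠ B → A.comap D.subtype ⊓ B.comap D.subtype = ⊥ := by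
      intro A hA B hB hne
      rw [eq_bot_iff]
      intro x hx
      rw [Submodule.mem_bot]
      by_contra hx0
      exact hne (hS.uniq (hTS hA) (hTS hB) (x := (x : V)) (by simpa using hx0) hx.1 hx.2)
    exact three_disjoint h2 hnsD (fun x hx => hS.tot X (hTS hX) _ hx)
      (fun x hx => hS.tot Y (hTS hY) _ hx) (fun x hx => hS.tot Z (hTS hZ) _ hx)
      (by omega : finrank F D = 2 * b) (hdims X hX).2 (hdims Y hY).2 (hdims Z hZ).2
      (hdisj X hX Y hY hXY) (hdisj X hX Z hZ hXZ) (hdisj Y hY Z hZ hYZ)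
  refine ⟨a, ha, hnsC, ?_, ?_⟩
  · intro ha1
    have hTne : T.Nonempty := by
      obtain ⟨x, hx0, hQx⟩ := exists_singular h2 (Q.restrict C) (by omega)
      have hx0' : (x : V) ≠ 0 := by simpa using hx0
      obtain ⟨X, ⟨hX, hxX⟩, _⟩ := hS.cover x hx0' hQx
      exact ⟨X, hmem X hX _ hxX hx0' x.2⟩
    have hda := fun X hX => (hdims X hX).1
    have hSC : IsSpread (Q.restrict C) a (traceOn C T) := trace_spread hTS hmem hS hda
    have hcC := spread_card_odd hnsC ha1 hSC (hTne.image _) ha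
    rw [trace_card hTS hS ha1 hda, ← hq] at hcC
    have hcT : T.ncard = q ^ a + 1 := by rw [← Nat.card_coe_set_eq]; exact hcC
    refine ⟨?_, hSC, hcT, ?_⟩
    · have h3 : 2 < T.ncard := by
        rw [hcT]
        have : q ^ 1 ≤ q ^ a := Nat.pow_le_pow_right (by omega) ha1
        rw [pow_one] at this
        omega
      have h5 := hthree h3
      rw [Nat.odd_iff]
      rw [Nat.even_iff] at h5
      omega
    · rw [hcC] at hmod
      have hle : q ^ a ≤ q ^ (2 * n + 1) := Nat.pow_le_pow_right (by omega) (by omega)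
      have h3 := (Nat.modEq_iff_dvd' (by omega)).1 hmod.symm
      have h4 : q ^ (2 * n + 1) + 1 - (q ^ a + 1) = q ^ a * (q ^ (2 * n + 1 - a) - 1) := by
        rw [Nat.mul_sub, ← pow_add, mul_one]
        have : a + (2 * n + 1 - a) = 2 * n + 1 := by omega
        rw [this]
        omega
      rw [h4] at h3
      exact (Nat.Coprime.pow_right a hqr).dvd_of_dvd_mul_left h3
  · intro ha0
    have hb' : b = 2 * n + 1 := by omega
    have hle2 : T.ncard ≤ 2 := by
      by_contra h
      have h5 := hthree (by omega)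
      rw [hb', Nat.even_iff] at h5
      omega
    rw [Nat.card_coe_set_eq] at hmod
    have hqpos : 1 ≤ q ^ (2 * n + 1) := Nat.one_le_pow _ _ (by omega)
    rcases (by omega : T.ncard = 0 ∨ T.ncard = 1 ∨ T.ncard = 2) with h | h | h
    · left
      rw [h] at hmod
      refine ⟨(Set.ncard_eq_zero (Set.toFinite T)).1 h, ?_⟩
      exact (Nat.modEq_zero_iff_dvd).1 hmod
    · exfalso
      rw [h] at hmod
      have h3 := (Nat.modEq_iff_dvd' (by omega)).1 hmod.symm
      rw [Nat.add_sub_cancel] at h3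
      have h4 := hp.dvd_of_dvd_pow h3
      exact (hp.coprime_iff_not_dvd.1 hqr) h4
    · right
      refine ⟨h, ?_⟩
      rw [h] at hmod
      have hq3 : 2 ≤ q ^ (2 * n + 1) := by
        have : q ^ 1 ≤ q ^ (2 * n + 1) := Nat.pow_le_pow_right (by omega) (by omega)
        rw [pow_one] at this
        omega
      have h3 := (Nat.modEq_iff_dvd' (by omega)).1 hmod.symm
      have h4 : q ^ (2 * n + 1) + 1 - 2 = q ^ (2 * n + 1) - 1 := by omega
      rwa [h4] at h3

/-- The same for similitudes. -/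
theorem odd_sim (h2 : (2 : F) ≠ 0) (hQ : NonSing Q) {n : ℕ} (hV : finrank F V = 4 * n + 3)
    {S : Set (Submodule F V)} (hS : IsSpread Q (2 * n + 1) S) (hp : r.Prime) (hr2 : r ≠ 2)
    (hrF : (r : F) ≠ 0) (μ : F) (ht : ∀ x, Q (t x) = μ * Q x) (l : F)
    (hr : ∀ x, t^[r] x = l • x) (hpres : ∀ X ∈ S, X.map (t : V →ₗ[F] V) ∈ S) :
    ∃ (ε : F) (a : ℕ), ε ≠ 0 ∧ finrank F (eig t ε) = 2 * a + 1 ∧
      NonSing (Q.restrict (eig t ε)) ∧
      (1 ≤ a → Odd a ∧
        IsSpread (Q.restrict (eig t ε)) a (traceOn (eig t ε) (fixedMembers S t)) ∧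
        (fixedMembers S t).ncard = Nat.card F ^ a + 1 ∧
        r ∣ Nat.card F ^ (2 * n + 1 - a) - 1) ∧
      (a = 0 → (fixedMembers S t = ∅ ∧ r ∣ Nat.card F ^ (2 * n + 1) + 1) ∨
        ((fixedMembers S t).ncard = 2 ∧ r ∣ Nat.card F ^ (2 * n + 1) - 1)) := by
  classical
  have hnt : Nontrivial V := by
    apply Module.nontrivial_of_finrank_pos (R := F); omega
  have hinj : Function.Injective (t^[r]) := t.injective.iterate r
  have hl0 : l ≠ 0 := by
    rintro rfl
    obtain ⟨v, hv⟩ := exists_ne (0 : V)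
    apply hv
    apply hinj
    rw [hr, hr, zero_smul, zero_smul]
  obtain ⟨v, hv⟩ : ∃ v, Q v ≠ 0 := by
    by_contra h
    push Not at h
    obtain ⟨v, hv⟩ := exists_ne (0 : V)
    apply hv
    apply hQ
    intro y
    unfold polar
    rw [h, h, h]; ring
  have hit : ∀ (i : ℕ) (x : V), Q (t^[i] x) = μ ^ i * Q x := by
    intro i
    induction i with
    | zero => intro x; simp
    | succ i ih =>
      intro x
      rw [Function.iterate_succ_apply', ht, ih]; ring
  have hμr : μ ^ r = l ^ 2 := by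
    have h1 := hit r v
    rw [hr, QuadraticMap.map_smul, smul_eq_mul] at h1
    apply mul_right_cancel₀ hv
    linear_combination -h1
  have hμ0 : μ ≠ 0 := by
    rintro rfl
    rw [zero_pow hp.ne_zero] at hμr
    exact hl0 (pow_eq_zero_iff (two_ne_zero) |>.1 hμr.symm)
  obtain ⟨s, hs⟩ := hp.odd_of_ne_two hr2
  have hμs : μ ^ s ≠ 0 := pow_ne_zero _ hμ0
  set u : F := l / μ ^ s with hu
  have hu0 : u ≠ 0 := div_ne_zero hl0 hμs
  have hu2 : u ^ 2 = μ := by
    rw [hu, div_pow, ← hμr, hs]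
    field_simp
    ring
  set δ : F := l / u ^ r with hδ
  have hδ2 : δ ^ 2 = 1 := by
    rw [hδ, div_pow, ← pow_mul, mul_comm r 2, pow_mul, hu2, hμr]
    exact div_self (pow_ne_zero _ hl0)
  have hδ0 : δ ≠ 0 := by
    rintro h0
    rw [h0] at hδ2
    simp at hδ2
  have hδr : δ ^ r = δ := by
    rw [hs, pow_succ, pow_mul, hδ2, one_pow, one_mul]
  set ε : F := δ * u with hε
  have hε0 : ε ≠ 0 := mul_ne_zero hδ0 hu0
  have hε2 : ε ^ 2 = μ := by rw [hε, mul_pow, hδ2, hu2, one_mul]
  have hεr : ε ^ r = l := by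
    rw [hε, mul_pow, hδr, hδ]
    exact div_mul_cancel₀ _ (pow_ne_zero _ hu0)
  let t' : V ≃ₗ[F] V := t.trans (LinearEquiv.smulOfNeZero F V ε⁻¹ (inv_ne_zero hε0))
  have ht' : ∀ x, t' x = ε⁻¹ • t x := fun x => rfl
  have hiso : ∀ x, Q (t' x) = Q x := by
    intro x
    rw [ht', QuadraticMap.map_smul, smul_eq_mul, ht, ← hε2]
    field_simp
  have hit' : ∀ (i : ℕ) (x : V), t'^[i] x = (ε⁻¹) ^ i • t^[i] x := by
    intro i
    induction i with
    | zero => intro x; simp
    | succ i ih =>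
      intro x
      rw [Function.iterate_succ_apply', Function.iterate_succ_apply', ih, ht', map_smul, smul_smul,
        ← pow_succ']
  have hr' : ∀ x, t'^[r] x = x := by
    intro x
    rw [hit', hr, smul_smul, inv_pow, hεr, inv_mul_cancel₀ hl0, one_smul]
  have hmap : ∀ X : Submodule F V, X.map (t' : V →ₗ[F] V) = X.map (t : V →ₗ[F] V) := by
    intro X
    ext y
    constructor
    · rintro ⟨x, hx, rfl⟩
      refine ⟨ε⁻¹ • x, X.smul_mem _ hx, ?_⟩
      show t (ε⁻¹ • x) = t' x
      rw [map_smul, ht']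
    · rintro ⟨x, hx, rfl⟩
      refine ⟨ε • x, X.smul_mem _ hx, ?_⟩
      show t' (ε • x) = t x
      rw [ht', map_smul, smul_smul, inv_mul_cancel₀ hε0, one_smul]
  have heig : eig t' 1 = eig t ε := by
    ext x
    rw [mem_eig, mem_eig, ht', one_smul]
    constructor
    · intro h
      rw [← h, smul_smul, mul_inv_cancel₀ hε0, one_smul, h]
    · intro h
      rw [h, smul_smul, inv_mul_cancel₀ hε0, one_smul]
  have hfix : fixedMembers S t' = fixedMembers S t := by
    ext X
    show (X ∈ S ∧ X.map (t' : V →ₗ[F] V) = X) ↔ (X ∈ S ∧ X.map (t : V →ₗ[F] V) = X)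
    rw [hmap]
  obtain ⟨a, h1, hns, h3, h4⟩ := odd_main h2 hQ hV hS hp hr2 hrF hiso hr'
    (fun X hX => by rw [hmap]; exact hpres X hX)
  rw [heig] at h1 hns h3
  rw [hfix] at h3 h4
  exact ⟨ε, a, hε0, h1, hns, h3, h4⟩

end Pool.Agent.H51.SPN
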